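import Mathlib

/-! Linear algebra: the projector to a generalised eigenspace as a sum of rank one operators. -/

open Polynomial

namespace Pool.Agent.LibPM67



variable {E : Type*} [Field E] {H : Type*} [AddCommGroup H] [Module E H]

/-- membership in the generalised eigenspace -/
def GE (f : Module.End E H) (μ : E) (x : H) : Prop := ∃ r : ℕ, ((f - μ • (1 : Module.End E H)) ^ r) x = 0

theorem pair_pow (φ : Module.End E H) (μ ν : E) (pair : H →ₗ[E] H →ₗ[E] E)
    (hφ : ∀ x y, pair (φ x) (φ y) = (μ * ν) * pair x y) (r : ℕ) (x h : H) :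
    pair (((φ - ν • (1 : Module.End E H)) ^ r) x) ((φ ^ r) h) =
      (-ν) ^ r * pair x (((φ - μ • (1 : Module.End E H)) ^ r) h) := by
  induction r generalizing x h with
  | zero => simp
  | succ r ih =>
    have h1 : ((φ - ν • (1 : Module.End E H)) ^ (r + 1)) x =
        ((φ - ν • (1 : Module.End E H)) ^ r) ((φ - ν • (1 : Module.End E H)) x) := by
      rw [pow_succ, Module.End.mul_apply]
    have h2 : (φ ^ (r + 1)) h = (φ ^ r) (φ h) := by
      rw [pow_succ, Module.End.mul_apply]
    have h3 : ((φ - μ • (1 : Module.End E H)) ^ r) (φ h) =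
        φ (((φ - μ • (1 : Module.End E H)) ^ r) h) := by
      have hc : Commute ((φ - μ • (1 : Module.End E H)) ^ r) φ :=
        Commute.pow_left ((Commute.refl φ).sub_left ((Commute.one_left φ).smul_left μ)) r
      exact LinearMap.congr_fun hc h
    have h4 : ((φ - μ • (1 : Module.End E H)) ^ (r + 1)) h =
        (φ - μ • (1 : Module.End E H)) (((φ - μ • (1 : Module.End E H)) ^ r) h) := by
      rw [pow_succ', Module.End.mul_apply]
    rw [h1, h2, ih, h3, h4]
    generalize ((φ - μ • (1 : Module.End E H)) ^ r) h = h'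
    simp only [LinearMap.sub_apply, LinearMap.smul_apply, Module.End.one_apply, map_sub, map_smul,
      smul_eq_mul, hφ]
    ring

/-- The square of the projector to the generalised `μ`-eigenspace of a similitude `φ` is a sum of
operators `h ↦ ⟨y, h⟩ v`, `v` in the generalised `μ`-eigenspace, `y` in that of `ν`. -/
theorem projector [FiniteDimensional E H] (φ : Module.End E H) (μ ν : E) (hQ : μ * ν ≠ 0)
    (pair : H →ₗ[E] H →ₗ[E] E) (hl : ∀ x, (∀ y, pair x y = 0) → x = 0)
    (hφ : ∀ x y, pair (φ x) (φ y) = (μ * ν) * pair x y) :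
    ∃ G : E[X], G.eval μ = 1 ∧ ∃ (n : ℕ) (v y : Fin n → H), (∀ i, GE φ μ (v i)) ∧
      (∀ i, GE φ ν (y i)) ∧ ∀ h, aeval φ G h = ∑ i, pair (y i) h • v i := by
  obtain ⟨r, hr⟩ : ∃ r, r = (minpoly E φ).rootMultiplicity μ := ⟨_, rfl⟩
  have hm : minpoly E φ ≠ 0 := minpoly.ne_zero (Algebra.IsIntegral.isIntegral φ)
  obtain ⟨M, hM, hdvd⟩ := Polynomial.exists_eq_pow_rootMultiplicity_mul_and_not_dvd
    (minpoly E φ) hm μ
  rw [← hr] at hM
  have hcop : IsCoprime ((X - C μ) ^ (r + 1)) M :=
    ((irreducible_X_sub_C μ).coprime_iff_not_dvd.2 hdvd).pow_left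
  obtain ⟨u, v, huv⟩ := hcop
  have hg1 : (v * M).eval μ = 1 := by
    have h1 := congrArg (Polynomial.eval μ) huv
    rw [eval_add, eval_mul (p := u), eval_pow, eval_sub, eval_X, eval_C, sub_self, pow_succ, mul_zero,
      mul_zero, zero_add, eval_one] at h1
    exact h1
  have e1 : (φ - μ • (1 : Module.End E H)) = aeval φ (X - C μ) := by
    rw [map_sub, aeval_X, aeval_C]; rfl
  have hkill : ∀ h, ((φ - μ • (1 : Module.End E H)) ^ r) (aeval φ (v * M) h) = 0 := by
    intro h
    rw [e1, ← map_pow, ← Module.End.mul_apply, ← map_mul]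
    have : (X - C μ) ^ r * (v * M) = v * minpoly E φ := by
      conv_rhs => rw [hM]
      ring
    rw [this, map_mul, minpoly.aeval, mul_zero]; rfl
  have hkill' : ∀ h, aeval φ (v * M) (((φ - μ • (1 : Module.End E H)) ^ r) h) = 0 := by
    intro h
    rw [e1, ← map_pow, ← Module.End.mul_apply, ← map_mul]
    have : (v * M) * (X - C μ) ^ r = v * minpoly E φ := by
      conv_rhs => rw [hM]
      ring
    rw [this, map_mul, minpoly.aeval, mul_zero]; rfl
  -- duality
  have hinj : Function.Injective pair := by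
    rw [injective_iff_map_eq_zero]
    intro x hx
    exact hl x fun y => by rw [hx]; rfl
  have hsurj : Function.Surjective pair := by
    have h1 : Module.finrank E H = Module.finrank E (H →ₗ[E] E) :=
      (Subspace.dual_finrank_eq (K := E) (V := H)).symm
    exact (LinearMap.injective_iff_surjective_of_finrank_eq_finrank h1).1 hinj
  have hφinj : Function.Injective φ := by
    rw [injective_iff_map_eq_zero]
    intro x hx
    apply hl
    intro y
    have h1 := hφ x y
    rw [hx, map_zero, LinearMap.zero_apply] at h1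
    exact (mul_eq_zero.1 h1.symm).resolve_left hQ
  have hφsurj : Function.Surjective φ := LinearMap.injective_iff_surjective.1 hφinj
  let b := Module.finBasis E H
  have hy : ∀ i, ∃ y, ∀ h, pair y h = b.coord i (aeval φ (v * M) h) := by
    intro i
    obtain ⟨y, hy⟩ := hsurj ((b.coord i) ∘ₗ (aeval φ (v * M)))
    exact ⟨y, fun h => by rw [hy]; rfl⟩
  choose y hy using hy
  refine ⟨(v * M) * (v * M), by rw [eval_mul, hg1, mul_one], Module.finrank E H,
    fun i => aeval φ (v * M) (b i), y, fun i => ⟨r, hkill _⟩, fun i => ⟨r, ?_⟩, fun h => ?_⟩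
  · apply hl
    intro z
    have hs : Function.Surjective (φ ^ r) := by
      rw [Module.End.coe_pow]
      exact hφsurj.iterate r
    obtain ⟨h, rfl⟩ := hs z
    rw [pair_pow φ μ ν pair hφ, hy, hkill', map_zero, mul_zero]
  · rw [map_mul, Module.End.mul_apply]
    conv_lhs => rw [← b.sum_repr (aeval φ (v * M) h)]
    rw [map_sum]
    refine Finset.sum_congr rfl fun i _ => ?_
    rw [map_smul, hy]
    rfl

end Pool.Agent.LibPM67
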