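import Pool.Agent.LibDL68.Bridge

/-!
# Higher Chow groups of varieties over a finite field

The schemes are schemes of Mathlib over `Spec k`, `k` a finite field (`LibDL68.Defs`: `Sch k`,
`Mor`, `Prd`, `IsVar` = separated of finite type, `OpenClosed`, `line X = X × 𝔸¹`, `Cell`, `Linear`,
`Act`, `IsQuotient`). `ChowTheory k E` lists the formal properties of Bloch's higher Chow groups
`CH_m(X, i) ⊗ E`, of the parts `B_m(X, i)` of the Borel-Moore homology on which Frobenius has the
generalised eigenvalue `q^m`, and of the cycle map, that are used. `Corr T V d` lists the standard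
data of a smooth proper variety `V` of dimension `d`: the ring of correspondences, its actions on
`CH_m(V, i) ⊗ E` and on the homology of `V`, Frobenius, and products of cycles.
-/

open CategoryTheory AlgebraicGeometry MonoidalCategory CartesianMonoidalCategory

namespace Pool.Agent.LibPM67

open Pool.Agent.LibDL68

/-- `x = 0`. -/
abbrev IsNull {M : Type} [AddCommGroup M] (x : M) : Prop := x = 0

/-- The scalar multiple `a x`. -/
abbrev sca {E : Type} [Field E] {M : Type} [AddCommGroup M] [Module E M] (a : E) (x : M) : M := a • x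

/-- `f` is `E`-linear. -/
abbrev Lin (E : Type) [Field E] {M N : Type} [AddCommGroup M] [Module E M] [AddCommGroup N]
    [Module E N] (f : M → N) : Prop := IsLinearMap E f

/-- The data of a Borel-Moore homology theory `h_m(X, i)`: push forward along proper morphisms,
restriction to open subschemes, boundary maps `h_m(U, i+1) → h_m(Z, i)` (on other morphisms these
maps are not used). -/
structure BM (k : Type) [Field k] (E : Type) [Field E] where
  h : Sch k → ℤ → ℕ → Type
  add : ∀ X m i, AddCommGroup (h X m i)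
  mod : ∀ X m i, Module E (h X m i)
  push : ∀ {X Y : Sch k}, Mor X Y → ∀ {m : ℤ} {i : ℕ}, h X m i → h Y m i
  res : ∀ {U X : Sch k}, Mor U X → ∀ {m : ℤ} {i : ℕ}, h X m i → h U m i
  bd : ∀ {Z X U : Sch k}, Mor Z X → Mor U X → ∀ {m : ℤ} {i : ℕ}, h U m (i + 1) → h Z m i

attribute [instance] BM.add BM.mod

namespace BM

variable {k : Type} [Field k] {E : Type} [Field E] (T : BM k E)

/-- All maps are linear. -/
structure Additive : Prop where
  push : ∀ (X Y : Sch k) (f : Mor X Y) (m : ℤ) (i : ℕ),
    Lin E (T.push f : T.h X m i → T.h Y m i)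
  res : ∀ (U X : Sch k) (j : Mor U X) (m : ℤ) (i : ℕ),
    Lin E (T.res j : T.h X m i → T.h U m i)
  bd : ∀ (Z X U : Sch k) (a : Mor Z X) (j : Mor U X) (m : ℤ) (i : ℕ),
    Lin E (T.bd a j : T.h U m (i + 1) → T.h Z m i)

/-- Functoriality for proper morphisms. -/
structure Functorial : Prop where
  id : ∀ (X : Sch k) (m : ℤ) (i : ℕ) (x : T.h X m i), T.push (idm X) x = x
  comp : ∀ {X Y Z : Sch k} (f : Mor X Y) (g : Mor Y Z) (m : ℤ) (i : ℕ) (x : T.h X m i),
    Proper f → Proper g → T.push (comp f g) x = T.push g (T.push f x)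

/-- The localisation sequence
`h_m(U, i+1) → h_m(Z, i) → h_m(X, i) → h_m(U, i) → h_m(Z, i-1)`, which ends with
`h_m(X, 0) → h_m(U, 0) → 0`. -/
structure Exact : Prop where
  mid : ∀ {Z X U : Sch k} (a : Mor Z X) (j : Mor U X) [IsVar X] (m : ℤ) (i : ℕ) (x : T.h X m i),
    OpenClosed a j → (IsNull (T.res j x) ↔ ∃ z, T.push a z = x)
  opn : ∀ {Z X U : Sch k} (a : Mor Z X) (j : Mor U X) [IsVar X] (m : ℤ) (i : ℕ)
    (u : T.h U m (i + 1)), OpenClosed a j → (IsNull (T.bd a j u) ↔ ∃ x, T.res j x = u)
  cls : ∀ {Z X U : Sch k} (a : Mor Z X) (j : Mor U X) [IsVar X] (m : ℤ) (i : ℕ) (z : T.h Z m i),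
    OpenClosed a j → (IsNull (T.push a z) ↔ ∃ u, T.bd a j u = z)
  surj : ∀ {Z X U : Sch k} (a : Mor Z X) (j : Mor U X) [IsVar X] (m : ℤ) (u : T.h U m 0),
    OpenClosed a j → ∃ x, T.res j x = u
  empty : ∀ (X : Sch k) (m : ℤ) (i : ℕ), IsEmpty (Pts X) → Subsingleton (T.h X m i)

/-- For a finite group `Γ` the push forward `h_m(Y, 0) → h_m(Y/Γ, 0)` is surjective, and injective
on the invariants. -/
def Quotient : Prop :=
  ∀ {Γ : Type} [Group Γ] [Finite Γ] {Y Q : Sch k} [IsVar Q] (ρ : Act Γ Y) (π : Mor Y Q) (m : ℤ),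
    IsQuotient ρ π → (∀ q : T.h Q m 0, ∃ y, T.push π y = q) ∧
      ∀ y : T.h Y m 0, (∀ g, T.push (ρ.mor g) y = y) → IsNull (T.push π y) → IsNull y

/-- `f` is the product with the fundamental class of `W`, and `r` is a left inverse of `f`. -/
structure Times (X W : Sch k) (w : ℕ) (m : ℤ) (f : T.h X m 0 → T.h (Prd X W) (m + w) 0)
    (r : T.h (Prd X W) (m + w) 0 → T.h X m 0) : Prop where
  lin : Lin E f
  left : ∀ x, r (f x) = x
  push : ∀ (g : Mor X X) (h : Mor W W) (x : T.h X m 0), IsIso g → IsIso h →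
    T.push (prdMap g h) (f x) = f (T.push g x)

end BM

/-- A Borel-Moore homology theory. -/
structure BMTheory (k : Type) [Field k] (E : Type) [Field E] extends BM k E where
  additive : toBM.Additive
  functorial : toBM.Functorial
  exact : toBM.Exact
  quotient : toBM.Quotient

/-- The data of a Chow theory: `CH.h X m i = CH_m(X, i) ⊗ E`, `B.h X m i` = the dual of the
generalised `q^m`-eigenspace of Frobenius on `H_c^(2m+i)(X ⊗ k̄, E)`, and the cycle map. -/
structure ChowData (k : Type) [Field k] (E : Type) [Field E] where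
  CH : BMTheory k E
  B : BMTheory k E
  cl : ∀ {X : Sch k} {m : ℤ} {i : ℕ}, CH.h X m i → B.h X m i

namespace ChowData

variable {k : Type} [Field k] {E : Type} [Field E] (T : ChowData k E)

/-- The cycle map is linear and compatible with the other maps. -/
structure Natural : Prop where
  lin : ∀ (X : Sch k) (m : ℤ) (i : ℕ), Lin E (T.cl : T.CH.h X m i → T.B.h X m i)
  push : ∀ {X Y : Sch k} (f : Mor X Y) (m : ℤ) (i : ℕ) (x : T.CH.h X m i), Proper f →
    T.cl (T.CH.push f x) = T.B.push f (T.cl x)
  res : ∀ {U X : Sch k} (j : Mor U X) (m : ℤ) (i : ℕ) (x : T.CH.h X m i), OpenImm j →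
    T.cl (T.CH.res j x) = T.B.res j (T.cl x)
  bd : ∀ {Z X U : Sch k} (a : Mor Z X) (j : Mor U X) (m : ℤ) (i : ℕ) (u : T.CH.h U m (i + 1)),
    OpenClosed a j → T.cl (T.CH.bd a j u) = T.B.bd a j (T.cl u)

/-- Homotopy invariance. -/
def Lines : Prop :=
  ∀ (X : Sch k) [IsVar X] (m : ℤ) (i : ℕ), ∃ (e : T.CH.h X m i → T.CH.h (line X) (m + 1) i)
    (e' : T.B.h X m i → T.B.h (line X) (m + 1) i), Lin E e ∧ Lin E e' ∧
      Function.Bijective e ∧ Function.Bijective e' ∧ ∀ x, T.cl (e x) = e' (T.cl x)

/-- The point: the cycle maps are bijective, and `CH_m(Spec k, i) ⊗ E = 0` for `i > 0` (the higher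
K-groups of a finite field are torsion). -/
structure Point : Prop where
  bij : ∀ (X : Sch k) (m : ℤ) (i : ℕ), IsPoint X →
    Function.Bijective (T.cl : T.CH.h X m i → T.B.h X m i)
  pos : ∀ (X : Sch k) (m : ℤ) (i : ℕ), IsPoint X → 0 < i → Subsingleton (T.CH.h X m i)

/-- The product with the fundamental class of a smooth geometrically irreducible variety `W` has a
left inverse (pull back to a closed point of `W`, divided by its degree). -/
def Fund : Prop :=
  ∀ (X W : Sch k) [IsVar X] [IsVar W] (w : ℕ), IsSmoothDim w W → IsGeomIrred W → ∀ m : ℤ,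
    ∃ (f : T.CH.h X m 0 → T.CH.h (Prd X W) (m + w) 0) (r : T.CH.h (Prd X W) (m + w) 0 → T.CH.h X m 0)
      (f' : T.B.h X m 0 → T.B.h (Prd X W) (m + w) 0) (r' : T.B.h (Prd X W) (m + w) 0 → T.B.h X m 0),
      T.CH.Times X W w m f r ∧ T.B.Times X W w m f' r' ∧ (∀ x, T.cl (f x) = f' (T.cl x)) ∧
        ∀ y, T.cl (r y) = r' (T.cl y)

/-- Push forward along a surjective morphism of smooth proper varieties is surjective. -/
def Surj : Prop :=
  ∀ {V X : Sch k} (f : Mor V X) (d e : ℕ) (m : ℤ) (i : ℕ) (x : T.CH.h X m i), IsComplete V →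
    IsSmoothDim d V → IsComplete X → IsSmoothDim e X → (∀ y, InImage f y) →
      ∃ v : T.CH.h V m i, T.CH.push f v = x

end ChowData

/-- The formal properties of higher Chow groups with coefficients in `E` which are used. -/
structure ChowTheory (k : Type) [Field k] (E : Type) [Field E] extends ChowData k E where
  natural : toChowData.Natural
  lines : toChowData.Lines
  point : toChowData.Point
  fund : toChowData.Fund
  surj : toChowData.Surj

/-- `CH_m(X, i) ⊗ E` -/
abbrev ChowTheory.Chow {k : Type} [Field k] {E : Type} [Field E] (T : ChowTheory k E) (X : Sch k)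
    (m : ℤ) (i : ℕ) : Type := T.CH.h X m i

/-- A representation of the `E`-algebra `C` on `M`. -/
structure IsRep (E : Type) [Field E] {C M : Type} [Ring C] [Algebra E C] [AddCommGroup M]
    [Module E M] (f : C → M → M) : Prop where
  lin : ∀ c, Lin E (f c)
  lin' : ∀ x, Lin E fun c => f c x
  one : ∀ x, f 1 x = x
  mul : ∀ a b x, f (a * b) x = f a (f b x)

/-- `x` is killed by a power of `f - μ` (or `x = 0`): a generalised eigenvector of `f`. -/
def GEig {E : Type} [Field E] {M : Type} [AddCommGroup M] [Module E M] (f : M → M) (μ : E) (x : M) :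
    Prop :=
  ∃ r : ℕ, IsNull ((fun y => f y - sca μ y)^[r] x)

/-- The data of the correspondences of a smooth proper variety `V` of pure dimension `d` over the
finite field `k`, acting by push forward: `C = CH_d(V × V) ⊗ E` (through `toCH`), a ring under
composition; `gr g` the graph of `g : V → V`, `fr` the graph of the Frobenius `V → V` over `k`,
`act` the action on `CH_m(V, i) ⊗ E`, `H` the total homology `⊕ H_j(V ⊗ k̄, E)`, `hom` the
action on `H`, `inc` the inclusion of `B_m(V, 0)` in `H`, `pair` the intersection form, and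
`cross z w` the correspondence `w × z`. -/
structure CorrData {k : Type} [Field k] {E : Type} [Field E] (T : ChowTheory k E) (V : Sch k)
    (d : ℕ) where
  C : Type
  H : Type
  ring : Ring C
  alg : Algebra E C
  add : AddCommGroup H
  mod : Module E H
  toCH : C → T.Chow (Prd V V) d 0
  gr : Mor V V → C
  fr : C
  act : C → ∀ {m : ℤ} {i : ℕ}, T.Chow V m i → T.Chow V m i
  hom : C → H → H
  inc : ∀ {m : ℤ}, T.B.h V m 0 → H
  pair : H → H → E
  cross : ∀ {m : ℤ}, T.Chow V m 0 → T.Chow V (d - m) 0 → C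

attribute [instance] CorrData.ring CorrData.alg CorrData.add CorrData.mod

namespace CorrData

variable {k : Type} [Field k] {E : Type} [Field E] {T : ChowTheory k E} {V : Sch k} {d : ℕ}
  (D : CorrData T V d)

/-- The class of a cycle in the homology. -/
def cyc {m : ℤ} (z : T.Chow V m 0) : D.H := D.inc (T.cl z)

/-- The ring of correspondences, graphs, and Frobenius, which commutes with all
correspondences over `k`. -/
structure Graphs : Prop where
  lin : Lin E D.toCH
  bij : Function.Bijective D.toCH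
  one : D.gr (idm V) = 1
  mul : ∀ f g : Mor V V, D.gr (comp f g) = D.gr g * D.gr f
  comm : ∀ (g : Mor V V) (c : D.C), IsIso g → D.gr g * c = c * D.gr g →
    T.CH.push (prdMap g g) (D.toCH c) = D.toCH c
  frob : ∀ c, D.fr * c = c * D.fr

/-- The actions. Frobenius acts on `CH_m(V, i)` as `q^m`; a correspondence which acts as zero on
the homology is homologous to zero. -/
structure Actions : Prop where
  act : ∀ (m : ℤ) (i : ℕ), IsRep E (fun c (x : T.Chow V m i) => D.act c x)
  frob : ∀ (m : ℤ) (i : ℕ) (x : T.Chow V m i), D.act D.fr x = sca (qK k E ^ m) x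
  hom : IsRep E D.hom
  finite : Module.Finite E D.H
  zero : ∀ c, (∀ h, IsNull (D.hom c h)) → IsNull (T.cl (D.toCH c))

/-- `inc` identifies `B_m(V, 0)` with the generalised `q^m`-eigenspace of Frobenius on `H`. -/
structure Inclusion : Prop where
  lin : ∀ m : ℤ, Lin E (D.inc : T.B.h V m 0 → D.H)
  inj : ∀ (m : ℤ) (b : T.B.h V m 0), IsNull (D.inc b) → IsNull b
  range : ∀ (m : ℤ) (h : D.H), GEig (D.hom D.fr) (qK k E ^ m) h → ∃ b : T.B.h V m 0, D.inc b = h
  push : ∀ (g : Mor V V) (m : ℤ) (b : T.B.h V m 0), IsIso g →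
    D.inc (T.B.push g b) = D.hom (D.gr g) (D.inc b)

/-- Cycle classes, the intersection form, and products `w × z`, which act on `CH_n(V, i)` through
`CH_(n-m)(Spec k, i)`. -/
structure Cycles : Prop where
  cyc : ∀ (m : ℤ) (c : D.C) (x : T.Chow V m 0), D.cyc (D.act c x) = D.hom c (D.cyc x)
  left : ∀ y, Lin E fun x => D.pair x y
  right : ∀ x, Lin E (D.pair x)
  nondeg : ∀ x, (∀ y, D.pair x y = 0) → IsNull x
  frob : ∀ x y, D.pair (D.hom D.fr x) (D.hom D.fr y) = qK k E ^ d * D.pair x y
  hom : ∀ (m : ℤ) (z : T.Chow V m 0) (w : T.Chow V (d - m) 0) h,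
    D.hom (D.cross z w) h = sca (D.pair (D.cyc w) h) (D.cyc z)
  act : ∀ (m : ℤ) (z : T.Chow V m 0) (w : T.Chow V (d - m) 0) (n : ℤ) (i : ℕ) (P : Sch k),
    IsPoint P → ∃ (f : T.Chow V n i → T.Chow P (n - m) i) (g : T.Chow P (n - m) i → T.Chow V n i),
      Lin E f ∧ Lin E g ∧ ∀ x, D.act (D.cross z w) x = g (f x)
  zero : ∀ (m : ℤ) (z : T.Chow V m 0) (w : T.Chow V (d - m) 0) (x : T.Chow V m 0),
    D.act (D.cross z w) x = sca (D.pair (D.cyc w) (D.cyc x)) z

/-- Weights: Frobenius has no eigenvalue `q^m` on the homology for `m < 0` and `m > d`, and the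
generalised eigenspaces for `1` and `q^d` consist of classes of points and of components. -/
structure Weights : Prop where
  none : ∀ m : ℤ, (m < 0 ∨ (d : ℤ) < m) → ∀ h, GEig (D.hom D.fr) (qK k E ^ m) h → IsNull h
  bottom : ∀ h, GEig (D.hom D.fr) (qK k E ^ (0 : ℤ)) h → ∃ z : T.Chow V 0 0, D.cyc z = h
  top : ∀ h, GEig (D.hom D.fr) (qK k E ^ (d : ℤ)) h → ∃ z : T.Chow V d 0, D.cyc z = h

end CorrData

/-- The standard data of the correspondences of a smooth proper variety `V` of dimension `d`. -/
structure Corr {k : Type} [Field k] {E : Type} [Field E] (T : ChowTheory k E) (V : Sch k)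
    (d : ℕ) extends CorrData T V d where
  graphs : toCorrData.Graphs
  actions : toCorrData.Actions
  inclusion : toCorrData.Inclusion
  cycles : toCorrData.Cycles
  weights : toCorrData.Weights

/-- The generalised `q^m`-eigenvectors of Frobenius on the homology of `V` are classes of cycles (the
Tate conjecture for `V` in dimension `m`, together with semisimplicity at `q^m`). -/
def Tate {k : Type} [Field k] {E : Type} [Field E] {T : ChowTheory k E} {V : Sch k} {d : ℕ}
    (D : Corr T V d) (m : ℤ) : Prop :=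
  ∀ h, GEig (D.hom D.fr) (qK k E ^ m) h → ∃ z : T.Chow V m 0, D.cyc z = h

/-- `g ↦ f g` is an action of the finite group `Γ` on `X`, and `X/Γ` is a linear variety. -/
def LinQuot {k : Type} [Field k] {Γ : Type} [Group Γ] {X : Sch k} (f : Γ → Mor X X) : Prop :=
  ∃ (τ : Act Γ X) (R : Sch k) (π : Mor X R), (∀ g, τ.mor g = f g) ∧ IsVar R ∧ IsQuotient τ π ∧
    Linear R

/-- The generalised `q^m`-eigenspace of Frobenius on the homology of `V` is spanned by classes of
cycles and by vectors which are fixed by a subgroup `B` of `Γ` such that `(V × W)/B` is a linear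
variety. -/
def Principal {k : Type} [Field k] {E : Type} [Field E] {T : ChowTheory k E} {V W : Sch k} {d : ℕ}
    (D : Corr T V d) {Γ : Type} [Group Γ] (ρ : Act Γ V) (σ : Act Γ W) (m : ℤ) : Prop :=
  ∀ h, GEig (D.hom D.fr) (qK k E ^ m) h → h ∈ Submodule.span E {v | GEig (D.hom D.fr) (qK k E ^ m) v ∧
    ((∃ z : T.Chow V m 0, D.cyc z = v) ∨ ∃ B : Subgroup Γ,
      (∀ b ∈ B, D.hom (D.gr (ρ.mor b)) v = v) ∧ LinQuot fun b : B => prdMap (ρ.mor b) (σ.mor b))}

end Pool.Agent.LibPM67
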