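import Pool.Agent.LibPM67.Defs

/-! The cycle map of a linear variety over a finite field is bijective. -/

open CategoryTheory AlgebraicGeometry MonoidalCategory CartesianMonoidalCategory

namespace Pool.Agent.LibPM67

open Pool.Agent.LibDL68

variable {k : Type} [Field k] {E : Type} [Field E]

/-! ### varieties -/

theorem var_line {X : Sch k} (h : IsVar X) : IsVar (line X) := by
  have h1 := old_isVar h
  exact new_isVar (Old.instVarLine X)

theorem var_closed {Z X : Sch k} (a : Mor Z X) (h : IsVar X) (ha : ClosedImm a) : IsVar Z := by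
  have h1 := old_isVar h
  exact new_isVar (Old.isVar_of_closed a ha)

theorem var_open {U X : Sch k} (j : Mor U X) (h : IsVar X) (hj : OpenImm j) : IsVar U := by
  have h1 := old_isVar h
  exact new_isVar (Old.isVar_of_open j hj)

theorem var_iso {X Y : Sch k} (e : Y ≅ X) (h : IsVar X) : IsVar Y := by
  have h1 := old_isVar h
  exact new_isVar (Old.isVar_of_iso e)

theorem var_cell {d : ℕ} {U : Sch k} (h : Cell d U) : IsVar U :=
  new_isVar (old_cell h).isVar

theorem proper_closed {Z X : Sch k} (a : Mor Z X) (ha : ClosedImm a) : Proper a := by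
  have h1 : IsClosedImmersion a.left := ha
  have h2 : IsProper a.left := inferInstance
  exact h2

theorem proper_iso {X Y : Sch k} (e : X ≅ Y) : Proper e.hom := Old.isProper_iso e

variable (T : ChowTheory k E)

/-- the cycle maps of `X` are bijective -/
def Good (X : Sch k) : Prop := ∀ (m : ℤ) (i : ℕ), Function.Bijective (T.cl : T.CH.h X m i → T.B.h X m i)

theorem lin_inj {M N : Type} [AddCommGroup M] [Module E M] [AddCommGroup N] [Module E N] {f : M → N}
    (hf : IsLinearMap E f) : (∀ x, f x = 0 → x = 0) ↔ Function.Injective f := by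
  constructor
  · intro h x y hxy
    have h1 : f (x - y) = 0 := by rw [hf.map_sub, hxy, sub_self]
    exact sub_eq_zero.1 (h _ h1)
  · intro h x hx
    exact h (by rw [hx, hf.map_zero])

theorem cl_zero (X : Sch k) (m : ℤ) (i : ℕ) : T.cl (0 : T.CH.h X m i) = 0 :=
  (T.natural.lin X m i).map_zero

theorem push_zero (S : BMTheory k E) {X Y : Sch k} (f : Mor X Y) (m : ℤ) (i : ℕ) :
    S.push f (0 : S.h X m i) = 0 := (S.additive.push X Y f m i).map_zero

theorem res_zero (S : BMTheory k E) {U X : Sch k} (f : Mor U X) (m : ℤ) (i : ℕ) :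
    S.res f (0 : S.h X m i) = 0 := (S.additive.res U X f m i).map_zero

theorem bd_zero (S : BMTheory k E) {Z X U : Sch k} (a : Mor Z X) (j : Mor U X) (m : ℤ) (i : ℕ) :
    S.bd a j (0 : S.h U m (i + 1)) = 0 := (S.additive.bd Z X U a j m i).map_zero

theorem push_inv (S : BMTheory k E) {X Y : Sch k} (e : X ≅ Y) (m : ℤ) (i : ℕ) (y : S.h Y m i) :
    S.push e.hom (S.push e.inv y) = y := by
  rw [← S.functorial.comp e.inv e.hom m i y (proper_iso e.symm) (proper_iso e)]
  have h : comp e.inv e.hom = idm Y := e.inv_hom_id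
  rw [h, S.functorial.id]

theorem good_iso {X Y : Sch k} (e : X ≅ Y) (h : Good T X) : Good T Y := by
  intro m i
  obtain ⟨hi, hs⟩ := h m i
  constructor
  · rw [← lin_inj (T.natural.lin Y m i)]
    intro y hy
    have h3 : T.cl (T.CH.push e.inv y) = 0 := by
      rw [T.natural.push e.inv m i y (proper_iso e.symm), hy, push_zero]
    have h4 : T.CH.push e.inv y = 0 := hi (by rw [h3, cl_zero])
    rw [← push_inv T.CH e m i y, h4, push_zero]
  · intro b
    obtain ⟨a, ha⟩ := hs (T.B.push e.inv b)
    refine ⟨T.CH.push e.hom a, ?_⟩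
    rw [T.natural.push e.hom m i a (proper_iso e), ha, push_inv]

theorem good_glue {Z X U : Sch k} (a : Mor Z X) (j : Mor U X) (h : OpenClosed a j) (hX : IsVar X)
    (hZ : Good T Z) (hU : Good T U) : Good T X := by
  have ha : Proper a := proper_closed a h.closed
  intro m i
  constructor
  · rw [← lin_inj (T.natural.lin X m i)]
    intro x hx
    have h1 : T.CH.res j x = 0 := by
      apply (hU m i).1
      rw [T.natural.res j m i x h.opn, hx, res_zero, cl_zero]
    obtain ⟨z, rfl⟩ := (T.CH.exact.mid a j m i x h).1 h1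
    rw [T.natural.push a m i z ha] at hx
    obtain ⟨β, hβ⟩ := (T.B.exact.cls a j m i _ h).1 hx
    obtain ⟨α, rfl⟩ := (hU m (i + 1)).2 β
    have h3 : T.CH.bd a j α = z := by
      apply (hZ m i).1
      rw [T.natural.bd a j m i α h, hβ]
    exact (T.CH.exact.cls a j m i z h).2 ⟨α, h3⟩
  · intro b
    obtain ⟨u, hu⟩ := (hU m i).2 (T.B.res j b)
    have h1 : ∃ x : T.CH.h X m i, T.CH.res j x = u := by
      rcases i with _ | i
      · exact T.CH.exact.surj a j m u h
      · apply (T.CH.exact.opn a j m i u h).1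
        apply (hZ m i).1
        rw [T.natural.bd a j m i u h, hu, cl_zero]
        exact (T.B.exact.opn a j m i _ h).2 ⟨b, rfl⟩
    obtain ⟨x, hx⟩ := h1
    have h2 : T.B.res j (b - T.cl x) = 0 := by
      rw [(T.B.additive.res U X j m i).map_sub, ← T.natural.res j m i x h.opn, hx, hu, sub_self]
    obtain ⟨bz, hbz⟩ := (T.B.exact.mid a j m i _ h).1 h2
    obtain ⟨z, rfl⟩ := (hZ m i).2 bz
    refine ⟨x + T.CH.push a z, ?_⟩
    rw [(T.natural.lin X m i).map_add, T.natural.push a m i z ha, hbz]
    abel

theorem good_compl {Z X U : Sch k} (a : Mor Z X) (j : Mor U X) (h : OpenClosed a j) (hXv : IsVar X)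
    (hZ : Good T Z) (hX : Good T X) : Good T U := by
  have ha : Proper a := proper_closed a h.closed
  intro m i
  constructor
  · rw [← lin_inj (T.natural.lin U m i)]
    intro u hu
    have h1 : ∃ x : T.CH.h X m i, T.CH.res j x = u := by
      rcases i with _ | i
      · exact T.CH.exact.surj a j m u h
      · apply (T.CH.exact.opn a j m i u h).1
        apply (hZ m i).1
        rw [T.natural.bd a j m i u h, hu, bd_zero, cl_zero]
    obtain ⟨x, rfl⟩ := h1
    rw [T.natural.res j m i x h.opn] at hu
    obtain ⟨bz, hbz⟩ := (T.B.exact.mid a j m i _ h).1 hu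
    obtain ⟨z, rfl⟩ := (hZ m i).2 bz
    have h2 : T.CH.push a z = x := by
      apply (hX m i).1
      rw [T.natural.push a m i z ha, hbz]
    exact (T.CH.exact.mid a j m i x h).2 ⟨z, h2⟩
  · intro b
    rcases i with _ | i
    · obtain ⟨bx, rfl⟩ := T.B.exact.surj a j m b h
      obtain ⟨x, rfl⟩ := (hX m 0).2 bx
      exact ⟨T.CH.res j x, T.natural.res j m 0 x h.opn⟩
    · obtain ⟨z, hz⟩ := (hZ m i).2 (T.B.bd a j b)
      have h1 : T.CH.push a z = 0 := by
        apply (hX m i).1
        rw [T.natural.push a m i z ha, hz, cl_zero]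
        exact (T.B.exact.cls a j m i _ h).2 ⟨b, rfl⟩
      obtain ⟨α, rfl⟩ := (T.CH.exact.cls a j m i z h).1 h1
      have h2 : T.B.bd a j (b - T.cl α) = 0 := by
        rw [(T.B.additive.bd Z X U a j m i).map_sub, ← T.natural.bd a j m i α h, hz, sub_self]
      obtain ⟨bx, hbx⟩ := (T.B.exact.opn a j m i _ h).1 h2
      obtain ⟨x, rfl⟩ := (hX m (i + 1)).2 bx
      refine ⟨α + T.CH.res j x, ?_⟩
      rw [(T.natural.lin U m (i + 1)).map_add, T.natural.res j m (i + 1) x h.opn, hbx]
      abel

theorem good_line (X : Sch k) (hX : IsVar X) (h : Good T X) : Good T (line X) := by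
  intro m i
  obtain ⟨n, rfl⟩ : ∃ n : ℤ, m = n + 1 := ⟨m - 1, by ring⟩
  obtain ⟨e, e', he1, he2, he3, he4, he⟩ := T.lines X n i
  obtain ⟨hi, hs⟩ := h n i
  constructor
  · rw [← lin_inj (T.natural.lin (line X) (n + 1) i)]
    intro y hy
    obtain ⟨x, rfl⟩ := he3.2 y
    rw [he] at hy
    have h1 : T.cl x = 0 := he4.1 (by rw [hy, he2.map_zero])
    have h2 : x = 0 := hi (by rw [h1, cl_zero])
    rw [h2, he1.map_zero]
  · intro b
    obtain ⟨c, rfl⟩ := he4.2 b
    obtain ⟨x, rfl⟩ := hs c
    exact ⟨e x, he x⟩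

theorem good_cell {d : ℕ} {U : Sch k} (h : Cell d U) : Good T U := by
  induction h with
  | point X hX => exact fun m i => T.point.bij X m i hX
  | line d X Y hX e ih =>
    obtain ⟨e⟩ := e
    exact good_iso T e.symm (good_line T X (var_cell hX) ih)
  | torus d X U s j hX _ h ih =>
    exact good_compl T s j h (var_line (var_cell hX)) ih (good_line T X (var_cell hX) ih)

/-- **The cycle maps of a linear variety are bijective.** -/
theorem good_linear {Q : Sch k} (h : Linear Q) : IsVar Q → Good T Q := by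
  induction h with
  | empty X hX =>
    intro _ m i
    have h1 := T.CH.exact.empty X m i hX
    have h2 := T.B.exact.empty X m i hX
    exact ⟨fun _ _ _ => Subsingleton.elim _ _, fun b => ⟨0, Subsingleton.elim _ _⟩⟩
  | step d Z X U a j h hZ hU ih =>
    intro hX
    exact good_glue T a j h hX (ih (var_closed a hX h.closed)) (good_cell T hU)

end Pool.Agent.LibPM67
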