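import Pool.Agent.LibPM67.Linear
import Pool.Agent.LibPM67.Alg

/-! Vanishing of higher Chow groups of `V` when `(V × V × W)/Γ` is linear. -/

open CategoryTheory AlgebraicGeometry MonoidalCategory CartesianMonoidalCategory Polynomial

namespace Pool.Agent.LibPM67

open Pool.Agent.LibDL68

variable {k : Type} [Field k] {E : Type} [Field E] {T : ChowTheory k E}

/-- a representation as an algebra homomorphism -/
noncomputable def IsRep.toAlg {C M : Type} [Ring C] [Algebra E C] [AddCommGroup M] [Module E M]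
    {f : C → M → M} (h : IsRep E f) : C →ₐ[E] Module.End E M :=
  AlgHom.ofLinearMap
    { toFun := fun c => IsLinearMap.mk' (f c) (h.lin c)
      map_add' := fun a b => by ext x; exact (h.lin' x).map_add a b
      map_smul' := fun a b => by ext x; exact (h.lin' x).map_smul a b }
    (by ext x; exact h.one x) (fun a b => by ext x; exact h.mul a b x)

theorem IsRep.toAlg_apply {C M : Type} [Ring C] [Algebra E C] [AddCommGroup M] [Module E M]
    {f : C → M → M} (h : IsRep E f) (c : C) (x : M) : h.toAlg c x = f c x := rfl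

theorem gEig_iff {C M : Type} [Ring C] [Algebra E C] [AddCommGroup M] [Module E M]
    {f : C → M → M} (h : IsRep E f) (c : C) (μ : E) (x : M) :
    GEig (f c) μ x ↔ GE (h.toAlg c) μ x := by
  have key : ∀ r : ℕ, ∀ y, ((h.toAlg c - μ • (1 : Module.End E M)) ^ r) y =
      (fun y => f c y - μ • y)^[r] y := by
    intro r
    induction r with
    | zero => intro y; rfl
    | succ r ih =>
      intro y
      rw [pow_succ, Module.End.mul_apply, Function.iterate_succ_apply, ih]
      rfl
  unfold GEig GE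
  constructor
  · rintro ⟨r, hr⟩
    exact ⟨r, by rw [key]; exact hr⟩
  · rintro ⟨r, hr⟩
    exact ⟨r, by rw [← key]; exact hr⟩

theorem iso_mor {Γ : Type} [Group Γ] {X : Sch k} (ρ : Act Γ X) (g : Γ) : IsIso (ρ.mor g) := by
  change IsIso (ρ.toAut g).hom
  infer_instance

theorem iso_prd {X Y : Sch k} {f : Mor X X} {g : Mor Y Y} (hf : IsIso f) (hg : IsIso g) :
    IsIso (prdMap f g) := by
  change IsIso (f ⊗ₘ g)
  infer_instance

theorem proper_quot {Γ : Type} [Group Γ] {Y Q : Sch k} {ρ : Act Γ Y} {π : Mor Y Q}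
    (h : IsQuotient ρ π) : Proper π := by
  have hfin : IsFinite π.left := h.finite
  have h1 : IsProper π.left := inferInstance
  exact h1

theorem proper_mor {Γ : Type} [Group Γ] {X : Sch k} (ρ : Act Γ X) (g : Γ) : Proper (ρ.mor g) := by
  have h := iso_mor ρ g
  have h1 := proper_iso (asIso (ρ.mor g))
  exact h1

theorem var_prd {X Y : Sch k} (hX : IsVar X) (hY : IsVar Y) : IsVar (Prd X Y) := by
  have h1 := old_isVar hX
  have h2 := old_isVar hY
  exact new_isVar (Old.instVarTensor X Y)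

/-- Correspondences commuting with `Γ` are determined by their action on homology. -/
theorem comm_inj (V W : Sch k) (hV : IsVar V) (hWv : IsVar W) (d w : ℕ)
    (hWd : IsSmoothDim w W) (hW : IsGeomIrred W) {Γ : Type} [Group Γ] [Finite Γ] (ρ : Act Γ V)
    (σ : Act Γ W) (hQ : LinQuot fun g : Γ => prdMap (prdMap (ρ.mor g) (ρ.mor g)) (σ.mor g))
    (D : Corr T V d) (c : D.C)
    (hc : ∀ g, D.gr (ρ.mor g) * c = c * D.gr (ρ.mor g)) (h0 : ∀ h, D.hom c h = 0) : c = 0 := by
  obtain ⟨τ, Q, π, hτ, hQv, hπ, hL⟩ := hQ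
  have hcl := D.actions.zero c h0
  have hVV : IsVar (Prd V V) := var_prd hV hV
  obtain ⟨f, r, f', r', hf, hf', hff', hrr'⟩ := T.fund (Prd V V) W w hWd hW d
  have h1 : T.cl (f (D.toCH c)) = 0 := by
    rw [hff', hcl, hf'.lin.map_zero]
  have h2 : T.CH.push π (f (D.toCH c)) = 0 := by
    apply (good_linear T hL hQv (d + w) 0).1
    rw [T.natural.push π _ _ _ (proper_quot hπ), h1, push_zero, cl_zero]
  have h3 : f (D.toCH c) = 0 := by
    refine (T.CH.quotient τ π (d + w) hπ).2 _ (fun g => ?_) h2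
    rw [hτ g, hf.push (prdMap (ρ.mor g) (ρ.mor g)) (σ.mor g) (D.toCH c)
      (iso_prd (iso_mor ρ g) (iso_mor ρ g)) (iso_mor σ g),
      D.graphs.comm (ρ.mor g) c (iso_mor ρ g) (hc g)]
  have h6 : D.toCH c = 0 := by
    rw [← hf.left (D.toCH c), h3, ← hf.lin.map_zero, hf.left]
  exact D.graphs.bij.1 (by rw [h6, D.graphs.lin.map_zero])

/-- If `(V × W)/B` is linear, the elements of `B_m(V, 0)` fixed by `B` are classes of cycles. -/
theorem alg_inv [CharZero E] (V W : Sch k) (hV : IsVar V) (hWv : IsVar W) (w : ℕ)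
    (hWd : IsSmoothDim w W) (hW : IsGeomIrred W) {B : Type} [Group B] [Finite B] (ρ : Act B V)
    (σ : Act B W) (hQ : LinQuot fun g : B => prdMap (ρ.mor g) (σ.mor g))
    (m : ℤ) (b : T.B.h V m 0) (hb : ∀ g, T.B.push (ρ.mor g) b = b) : ∃ z, T.cl z = b := by
  classical
  obtain ⟨τ, Q, π, hτ, hQv, hπ, hL⟩ := hQ
  obtain ⟨f, r, f', r', hf, hf', hff', hrr'⟩ := T.fund V W w hWd hW m
  have hpi := proper_quot hπ
  have hfb : ∀ g, T.B.push (τ.mor g) (f' b) = f' b := by
    intro g
    rw [hτ g, hf'.push (ρ.mor g) (σ.mor g) b (iso_mor ρ g) (iso_mor σ g), hb g]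
  obtain ⟨q, hq⟩ := (good_linear T hL hQv (m + w) 0).2 (T.B.push π (f' b))
  obtain ⟨y, hy⟩ := (T.CH.quotient τ π (m + w) hπ).1 q
  have : Fintype B := Fintype.ofFinite B
  have hcard : (Fintype.card B : E) ≠ 0 := by
    have : 0 < Fintype.card B := Fintype.card_pos
    exact_mod_cast this.ne'
  -- average
  let P : B → (T.CH.h (Prd V W) (m + w) 0 →ₗ[E] T.CH.h (Prd V W) (m + w) 0) := fun g =>
    IsLinearMap.mk' (T.CH.push (τ.mor g)) (T.CH.additive.push _ _ (τ.mor g) (m + w) 0)
  have hP : ∀ g x, P g x = T.CH.push (τ.mor g) x := fun g x => rfl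
  have hPm : ∀ g h x, P g (P h x) = P (g * h) x := by
    intro g h x
    rw [hP, hP, hP, τ.mul g h, T.CH.functorial.comp (τ.mor h) (τ.mor g) (m + w) 0 x
      (proper_mor τ h) (proper_mor τ g)]
  have hPpi : ∀ g x, T.CH.push π (P g x) = T.CH.push π x := by
    intro g x
    rw [hP, ← T.CH.functorial.comp (τ.mor g) π (m + w) 0 x (proper_mor τ g) hpi, hπ.inv g]
  let Pi0 : T.CH.h (Prd V W) (m + w) 0 →ₗ[E] T.CH.h Q (m + w) 0 :=
    IsLinearMap.mk' (T.CH.push π) (T.CH.additive.push _ _ π (m + w) 0)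
  have hPi : ∀ x, Pi0 x = T.CH.push π x := fun x => rfl
  obtain ⟨y', hy'⟩ : ∃ y', y' = ((Fintype.card B : E)⁻¹) • ∑ g : B, P g y := ⟨_, rfl⟩
  have h1 : ∀ g, P g y' = y' := by
    intro g
    rw [hy', map_smul, map_sum]
    congr 1
    refine Fintype.sum_equiv (Equiv.mulLeft g) _ _ fun h => ?_
    rw [hPm]
    rfl
  have h2 : T.CH.push π y' = q := by
    rw [← hPi, hy', map_smul, map_sum]
    have h3 : ∀ g ∈ (Finset.univ : Finset B), Pi0 (P g y) = q := by
      intro g _
      rw [hPi, hPpi, hy]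
    rw [Finset.sum_congr rfl h3, Finset.sum_const, Finset.card_univ, ← Nat.cast_smul_eq_nsmul E,
      smul_smul, inv_mul_cancel₀ hcard, one_smul]
  have h3 : T.cl y' - f' b = 0 := by
    refine (T.B.quotient τ π (m + w) hπ).2 _ (fun g => ?_) ?_
    · rw [(T.B.additive.push _ _ (τ.mor g) (m + w) 0).map_sub, hfb g,
        ← T.natural.push (τ.mor g) _ _ _ (proper_mor τ g), ← hP, h1 g]
    · rw [(T.B.additive.push _ _ π (m + w) 0).map_sub, ← T.natural.push π _ _ _ hpi, h2, hq,
        sub_self]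
  refine ⟨r y', ?_⟩
  rw [hrr', sub_eq_zero.1 h3, hf'.left]

theorem cyc_lin {V : Sch k} {d : ℕ} (D : Corr T V d) (m : ℤ) :
    IsLinearMap E (D.cyc : T.CH.h V m 0 → D.H) := by
  constructor
  · intro x y
    unfold CorrData.cyc
    rw [(T.natural.lin V m 0).map_add, (D.inclusion.lin m).map_add]
  · intro a x
    unfold CorrData.cyc
    rw [(T.natural.lin V m 0).map_smul, (D.inclusion.lin m).map_smul]

/-- restriction of an action to a subgroup -/
def resAct {Γ : Type} [Group Γ] {X : Sch k} (ρ : Act Γ X) (B : Subgroup Γ) : Act B X where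
  mor b := ρ.mor b
  one := ρ.one
  mul g h := ρ.mul g h

theorem tate_of_principal [CharZero E] (V W : Sch k) (hV : IsVar V) (hWv : IsVar W) (d w : ℕ)
    (hWd : IsSmoothDim w W) (hW : IsGeomIrred W) {Γ : Type} [Group Γ] [Finite Γ] (ρ : Act Γ V)
    (σ : Act Γ W) (D : Corr T V d) (m : ℤ) (h : Principal D ρ σ m) : Tate D m := by
  intro v hv
  have h1 := h v hv
  let c : T.CH.h V m 0 →ₗ[E] D.H := IsLinearMap.mk' D.cyc (cyc_lin D m)
  have h2 : v ∈ LinearMap.range c := by
    refine (Submodule.span_le.2 ?_) h1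
    rintro u ⟨hu, ⟨z, hz⟩ | ⟨B, hB, hL⟩⟩
    · exact ⟨z, hz⟩
    · obtain ⟨b, rfl⟩ := D.inclusion.range m u hu
      obtain ⟨z, hz⟩ := alg_inv V W hV hWv w hWd hW (resAct ρ B) (resAct σ B) hL m b (fun g => by
        have h3 : D.inc (T.B.push (ρ.mor g) b - b) = 0 := by
          rw [(D.inclusion.lin m).map_sub, D.inclusion.push _ _ _ (iso_mor ρ g), hB g g.2, sub_self]
        exact sub_eq_zero.1 (D.inclusion.inj m _ h3))
      exact ⟨z, congrArg D.inc hz⟩
  obtain ⟨z, hz⟩ := h2
  exact ⟨z, hz⟩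

/-- Polynomials in Frobenius commute with all correspondences. -/
theorem comm_poly {V : Sch k} {d : ℕ} (D : Corr T V d) (G : E[X]) (a : D.C) :
    aeval D.fr G * a = a * aeval D.fr G := by
  have h1 : Commute D.fr a := D.graphs.frob a
  have h2 : ∀ p : E[X], Commute (aeval D.fr p) a := by
    intro p
    induction p using Polynomial.induction_on' with
    | add p q hp hq => rw [map_add]; exact hp.add_left hq
    | monomial j b =>
      rw [aeval_monomial]
      have h3 : Commute (algebraMap E D.C b) a := Algebra.commutes b a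
      exact h3.mul_left (h1.pow_left j)
  exact h2 G

/-- A correspondence which commutes with `Γ` and is zero on the generalised `q^m`-eigenspace of
Frobenius on the homology is zero on `CH_m(V, i) ⊗ E`. -/
theorem act_zero [Finite k] [CharZero E] (V W : Sch k) (hV : IsVar V) (hWv : IsVar W)
    (d w : ℕ) (hWd : IsSmoothDim w W) (hW : IsGeomIrred W) {Γ : Type} [Group Γ]
    [Finite Γ] (ρ : Act Γ V) (σ : Act Γ W)
    (hQ : LinQuot fun g : Γ => prdMap (prdMap (ρ.mor g) (ρ.mor g)) (σ.mor g)) (D : Corr T V d) (m : ℤ)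
    (c : D.C) (hc : ∀ g, D.gr (ρ.mor g) * c = c * D.gr (ρ.mor g))
    (h0 : ∀ h, GEig (D.hom D.fr) (qK k E ^ m) h → D.hom c h = 0) (i : ℕ) (x : T.CH.h V m i) :
    D.act c x = 0 := by
  have hq : qK k E ≠ 0 := by
    have : 0 < Nat.card k := Nat.card_pos
    unfold qK
    exact_mod_cast this.ne'
  have hQ' : qK k E ^ m * qK k E ^ ((d : ℤ) - m) = qK k E ^ d := by
    rw [← zpow_add₀ hq, ← zpow_natCast]
    congr 1
    ring
  have hfinH := D.actions.finite
  let R : D.C →ₐ[E] Module.End E D.H := D.actions.hom.toAlg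
  let A : D.C →ₐ[E] Module.End E (T.CH.h V m i) := (D.actions.act m i).toAlg
  let pr : D.H →ₗ[E] D.H →ₗ[E] E := LinearMap.mk₂ E D.pair
    (fun x y z => (D.cycles.left z).map_add x y) (fun a x z => (D.cycles.left z).map_smul a x)
    (fun x y z => (D.cycles.right x).map_add y z) (fun a x z => (D.cycles.right x).map_smul a z)
  obtain ⟨G, hG, n, v, y, hv, hy, hvy⟩ := projector (R D.fr) (qK k E ^ m)
    (qK k E ^ ((d : ℤ) - m)) (by rw [hQ']; exact pow_ne_zero _ hq) pr D.cycles.nondeg
    (fun x y => by rw [hQ']; exact D.cycles.frob x y)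
  have h1 : c * aeval D.fr G = 0 := by
    refine comm_inj V W hV hWv d w hWd hW ρ σ hQ D _ (fun g => ?_) (fun h => ?_)
    · rw [← mul_assoc, hc g, mul_assoc, mul_assoc, comm_poly D G]
    · have h2 : R (aeval D.fr G) = aeval (R D.fr) G := by
        rw [← Polynomial.aeval_algHom_apply]
      have h3 : D.hom (c * aeval D.fr G) h = R c (R (aeval D.fr G) h) :=
        D.actions.hom.mul c (aeval D.fr G) h
      rw [h3, h2, hvy h, map_sum]
      refine Finset.sum_eq_zero fun i _ => ?_
      rw [map_smul]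
      have h4 : R c (v i) = 0 := h0 (v i) ((gEig_iff D.actions.hom D.fr _ _).2 (hv i))
      rw [h4, smul_zero]
  have h2 : A (aeval D.fr G) x = x := by
    have h1 : A D.fr = algebraMap E (Module.End E (T.CH.h V m i)) (qK k E ^ m) := by
      apply LinearMap.ext
      intro x
      exact D.actions.frob m i x
    have h2 : A (aeval D.fr G) = aeval (A D.fr) G := by
      rw [← Polynomial.aeval_algHom_apply]
    rw [h2, h1, Polynomial.aeval_algebraMap_apply, Polynomial.coe_aeval_eq_eval, hG, map_one]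
    rfl
  have h3 : A (c * aeval D.fr G) x = 0 := by
    rw [h1, map_zero]
    rfl
  rw [map_mul, Module.End.mul_apply, h2] at h3
  exact h3

/-- If the Tate conjecture (with semisimplicity) holds for `V` in dimensions `m` and `d - m`, then
`CH_m(V, i) ⊗ E = 0` for `i > 0` and the class map of `CH_m(V) ⊗ E` is injective. -/
theorem main [Finite k] [CharZero E] (V W : Sch k) (hV : IsVar V) (hWv : IsVar W)
    (d w : ℕ) (hWd : IsSmoothDim w W) (hW : IsGeomIrred W) {Γ : Type} [Group Γ]
    [Finite Γ] (ρ : Act Γ V) (σ : Act Γ W)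
    (hQ : LinQuot fun g : Γ => prdMap (prdMap (ρ.mor g) (ρ.mor g)) (σ.mor g)) (D : Corr T V d) (m : ℤ)
    (hm : Tate D m) (hm' : Tate D (d - m)) :
    (∀ (i : ℕ) (x : T.CH.h V m i), 0 < i → x = 0) ∧
      ∀ x : T.CH.h V m 0, D.cyc x = 0 → x = 0 := by
  classical
  have hq : qK k E ≠ 0 := by
    have : 0 < Nat.card k := Nat.card_pos
    unfold qK
    exact_mod_cast this.ne'
  have hQ' : qK k E ^ m * qK k E ^ ((d : ℤ) - m) = qK k E ^ d := by
    rw [← zpow_add₀ hq, ← zpow_natCast]
    congr 1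
    ring
  have hfinH := D.actions.finite
  let R : D.C →ₐ[E] Module.End E D.H := D.actions.hom.toAlg
  let A : ∀ i : ℕ, D.C →ₐ[E] Module.End E (T.CH.h V m i) := fun i => (D.actions.act m i).toAlg
  have hA : ∀ i c x, A i c x = D.act c x := fun i c x => rfl
  let pr : D.H →ₗ[E] D.H →ₗ[E] E := LinearMap.mk₂ E D.pair
    (fun x y z => (D.cycles.left z).map_add x y) (fun a x z => (D.cycles.left z).map_smul a x)
    (fun x y z => (D.cycles.right x).map_add y z) (fun a x z => (D.cycles.right x).map_smul a z)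
  have hpr : ∀ x y, pr x y = D.pair x y := fun x y => rfl
  obtain ⟨G, hG, n, v, y, hv, hy, hvy⟩ := projector (R D.fr) (qK k E ^ m)
    (qK k E ^ ((d : ℤ) - m)) (by rw [hQ']; exact pow_ne_zero _ hq) pr D.cycles.nondeg
    (fun x y => by rw [hQ']; exact D.cycles.frob x y)
  choose z hz using fun i => hm (v i) ((gEig_iff D.actions.hom D.fr _ _).2 (hv i))
  choose u hu using fun i => hm' (y i) ((gEig_iff D.actions.hom D.fr _ _).2 (hy i))
  -- the algebraic correspondence with the same action on homology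
  let c : D.C := ∑ i, D.cross (z i) (u i)
  have hρc : R c = R (aeval D.fr G) := by
    have h1 : R (aeval D.fr G) = aeval (R D.fr) G := by
      rw [← Polynomial.aeval_algHom_apply]
    rw [h1]
    apply LinearMap.ext
    intro h
    rw [hvy h]
    change R (∑ i, D.cross (z i) (u i)) h = _
    rw [map_sum, LinearMap.sum_apply]
    refine Finset.sum_congr rfl fun i _ => ?_
    have h2 : R (D.cross (z i) (u i)) h = D.pair (D.cyc (u i)) h • D.cyc (z i) :=
      D.cycles.hom m (z i) (u i) h
    rw [h2, hz, hu, hpr]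
  have hfrG : ∀ a : D.C, aeval D.fr G * a = a * aeval D.fr G := by
    intro a
    have h1 : Commute D.fr a := D.graphs.frob a
    have h2 : ∀ p : E[X], Commute (aeval D.fr p) a := by
      intro p
      induction p using Polynomial.induction_on' with
      | add p q hp hq => rw [map_add]; exact hp.add_left hq
      | monomial j b =>
        rw [aeval_monomial]
        have h3 : Commute (algebraMap E D.C b) a := Algebra.commutes b a
        exact h3.mul_left (h1.pow_left j)
    exact h2 G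
  have : Fintype Γ := Fintype.ofFinite Γ
  have hcard : (Fintype.card Γ : E) ≠ 0 := by
    have : 0 < Fintype.card Γ := Fintype.card_pos
    exact_mod_cast this.ne'
  -- average
  let gr : Γ → D.C := fun g => D.gr (ρ.mor g)
  have hgm : ∀ g h, gr (g * h) = gr g * gr h := by
    intro g h
    change D.gr (ρ.mor (g * h)) = D.gr (ρ.mor g) * D.gr (ρ.mor h)
    rw [ρ.mul, D.graphs.mul]
  have hg1 : gr 1 = 1 := by
    change D.gr (ρ.mor 1) = 1
    rw [ρ.one, D.graphs.one]
  let cc : D.C := ((Fintype.card Γ : E)⁻¹) • ∑ g : Γ, gr g * c * gr g⁻¹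
  have hgr : ∀ g, gr g * gr g⁻¹ = 1 := by
    intro g
    rw [← hgm, mul_inv_cancel, hg1]
  have hcc : ∀ g, gr g * cc = cc * gr g := by
    intro g
    change gr g * (_ • ∑ h : Γ, gr h * c * gr h⁻¹) = (_ • ∑ h : Γ, _) * gr g
    rw [mul_smul_comm, smul_mul_assoc]
    congr 1
    rw [Finset.mul_sum, Finset.sum_mul]
    refine Fintype.sum_equiv (Equiv.mulLeft g) _ _ fun h => ?_
    change gr g * (gr h * c * gr h⁻¹) = gr (g * h) * c * gr (g * h)⁻¹ * gr g
    have h1 : gr (g * h)⁻¹ * gr g = gr h⁻¹ := by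
      rw [← hgm]
      congr 1
      group
    rw [mul_assoc _ (gr (g * h)⁻¹), h1, hgm]
    simp only [mul_assoc]
  have hρcc : R cc = R (aeval D.fr G) := by
    change R (_ • ∑ h : Γ, gr h * c * gr h⁻¹) = _
    rw [map_smul, map_sum]
    have h1 : ∀ g ∈ (Finset.univ : Finset Γ), R (gr g * c * gr g⁻¹) = R (aeval D.fr G) := by
      intro g _
      rw [map_mul, map_mul, hρc, ← map_mul, ← hfrG, map_mul, mul_assoc, ← map_mul, hgr, map_one,
        mul_one]
    rw [Finset.sum_congr rfl h1, Finset.sum_const, Finset.card_univ, ← Nat.cast_smul_eq_nsmul E,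
      smul_smul, inv_mul_cancel₀ hcard, one_smul]
  have hkey : cc = aeval D.fr G := by
    have h1 := comm_inj V W hV hWv d w hWd hW ρ σ hQ D (cc - aeval D.fr G)
      (fun g => by rw [mul_sub, sub_mul, ← hfrG, ← hcc g]) (fun h => by
        have h2 : R (cc - aeval D.fr G) h = 0 := by rw [map_sub, hρcc, sub_self]; rfl
        exact h2)
    exact sub_eq_zero.1 h1
  have hactG : ∀ (i : ℕ) (x : T.CH.h V m i), A i (aeval D.fr G) x = x := by
    intro i x
    have h1 : A i D.fr = algebraMap E (Module.End E (T.CH.h V m i)) (qK k E ^ m) := by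
      apply LinearMap.ext
      intro x
      exact D.actions.frob m i x
    have h2 : A i (aeval D.fr G) = aeval (A i D.fr) G := by
      rw [← Polynomial.aeval_algHom_apply]
    rw [h2, h1, Polynomial.aeval_algebraMap_apply, Polynomial.coe_aeval_eq_eval, hG, map_one]
    rfl
  have hzero : ∀ (i : ℕ) (x : T.CH.h V m i), (∀ g, A i c (A i (gr g⁻¹) x) = 0) → x = 0 := by
    intro i x hx
    rw [← hactG i x, ← hkey]
    change A i (_ • ∑ h : Γ, gr h * c * gr h⁻¹) x = 0
    rw [map_smul, map_sum, LinearMap.smul_apply, LinearMap.sum_apply]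
    rw [Finset.sum_eq_zero, smul_zero]
    intro g _
    rw [map_mul, map_mul, Module.End.mul_apply, Module.End.mul_apply, hx g, map_zero]
  have hactc : ∀ (i : ℕ) (x : T.CH.h V m i), A i c x = ∑ j, A i (D.cross (z j) (u j)) x := by
    intro i x
    change A i (∑ j, D.cross (z j) (u j)) x = _
    rw [map_sum, LinearMap.sum_apply]
  refine ⟨fun i x hi => hzero i x fun g => ?_, fun x hx => hzero 0 x fun g => ?_⟩
  · rw [hactc]
    refine Finset.sum_eq_zero fun j _ => ?_
    have hpt : IsPoint (Over.mk (𝟙 (Spec (CommRingCat.of k))) : Sch k) := by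
      change IsIso (𝟙 _)
      infer_instance
    obtain ⟨a, b, ha, hb, hab⟩ := D.cycles.act m (z j) (u j) m i _ hpt
    have := T.point.pos _ (m - m) i hpt hi
    rw [hA, hab, Subsingleton.elim (a _) 0, hb.map_zero]
  · rw [hactc]
    refine Finset.sum_eq_zero fun j _ => ?_
    have h1 : D.cyc (A 0 (gr g⁻¹) x) = 0 := by
      change D.cyc (D.act (gr g⁻¹) x) = 0
      rw [D.cycles.cyc, hx, (D.actions.hom.lin _).map_zero]
    have h2 : A 0 (D.cross (z j) (u j)) (A 0 (gr g⁻¹) x) =
        D.pair (D.cyc (u j)) (D.cyc (A 0 (gr g⁻¹) x)) • z j := D.cycles.zero m (z j) (u j) _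
    rw [h2, h1, (D.cycles.right _).map_zero, zero_smul]

end Pool.Agent.LibPM67
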